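import Pool.Agent.KS6_17.UE.Main

/-!
# Metrizable spaces with a noncompact derived set are `u`-equivalent to spaces that are not k-spaces

The notions used below (in `Pool.Agent.KS6_17.UE.Main`):
* `UEquivalent X Y`: there is a bijection between the sets of the continuous real-valued functions
  on `X` and on `Y`, uniformly continuous in both directions for the uniformities of pointwise
  convergence;
* `Hemicompact X`, `KSpace X`: `X` is hemicompact; `X` is a k-space.
-/

set_option autoImplicit false

namespace Pool.Agent.Results.MP_c610d5_gt.NoncompactDerivedSet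

open Pool.Agent.KS6_17.UE Topology

/-- (1) There is one countable Tychonoff space `W` such that for every metrizable space `X` whose
set of non-isolated points is not compact, `X` is `u`-equivalent to the disjoint sum `W ⊕ X`, which
is a Tychonoff space but not a k-space: it has a set that is not closed and has a finite
intersection with every compact set. Every metrizable space is a k-space.
(2) In particular every locally compact σ-compact metrizable space whose set of non-isolated points
is not compact is a `k_ω`-space which is `u`-equivalent to a Tychonoff space that is not a k-space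
(so not a `k_ω`-space).
(3) There are a countable metrizable `k_ω`-space and a countable Tychonoff space that is not a
k-space which are `u`-equivalent. -/
theorem result :
    (∃ (W : Type) (_ : TopologicalSpace W), Countable W ∧ T35Space W ∧
      ∀ (X : Type) [TopologicalSpace X] [TopologicalSpace.MetrizableSpace X],
        ¬ IsCompact {x : X | (𝓝[≠] x).NeBot} →
          KSpace X ∧ UEquivalent X (W ⊕ X) ∧ T35Space (W ⊕ X) ∧
          (∃ A : Set (W ⊕ X), ¬ IsClosed A ∧ ∀ C : Set (W ⊕ X), IsCompact C → (A ∩ C).Finite) ∧
          ¬ KSpace (W ⊕ X)) ∧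
    (∀ (X : Type) [TopologicalSpace X] [TopologicalSpace.MetrizableSpace X]
      [LocallyCompactSpace X] [SigmaCompactSpace X], ¬ IsCompact {x : X | (𝓝[≠] x).NeBot} →
        Hemicompact X ∧ KSpace X ∧
        ∃ (Y : Type) (_ : TopologicalSpace Y), T35Space Y ∧ UEquivalent X Y ∧ ¬ KSpace Y) ∧
    (∃ (X Y : Type) (_ : TopologicalSpace X) (_ : TopologicalSpace Y), Countable X ∧ Countable Y ∧
      TopologicalSpace.MetrizableSpace X ∧ Hemicompact X ∧ KSpace X ∧ T35Space Y ∧
      UEquivalent X Y ∧ ¬ KSpace Y) := by
  have hW := Pool.Agent.H82.FS.t35 Pool.Agent.H82.UKw.Z_le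
  have key : ∀ (X : Type) [TopologicalSpace X] [TopologicalSpace.MetrizableSpace X],
      T35Space (Pool.Agent.H82.FS.FS Pool.Agent.H82.UKw.Z ⊕ X) := fun X _ _ =>
    Pool.Agent.H82.FS.t35_sum
  refine ⟨⟨Pool.Agent.H82.FS.FS Pool.Agent.H82.UKw.Z, inferInstance,
    inferInstanceAs (Countable (Option Pool.Agent.H82.UKw.J)), hW, fun X _ _ hX => ?_⟩,
    fun X _ _ _ _ hX => ⟨hemicompact X, kSpace X, _, inferInstance, key X, uEquivalent X hX, ?_⟩,
    ⟨ℕ × Pool.Agent.KS6_17.UE.KK, Pool.Agent.H82.FS.FS Pool.Agent.H82.UKw.Z ⊕
      (ℕ × Pool.Agent.KS6_17.UE.KK), inferInstance, inferInstance, inferInstance, ?_,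
      inferInstance, hemicompact _, kSpace _, key _, uEquivalent _ not_compact_acc, ?_⟩⟩
  · have := key X
    exact ⟨kSpace X, uEquivalent X hX, key X, ⟨badSet X, badSet_not_closed X,
      fun C hC => badSet_fin X hC⟩, not_kSpace X⟩
  · have := key X
    exact not_kSpace X
  · have : Countable (Pool.Agent.H82.FS.FS Pool.Agent.H82.UKw.Z) :=
      inferInstanceAs (Countable (Option Pool.Agent.H82.UKw.J))
    infer_instance
  · have := key (ℕ × Pool.Agent.KS6_17.UE.KK)
    exact not_kSpace _

end Pool.Agent.Results.MP_c610d5_gt.NoncompactDerivedSet
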